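import Pool.Agent.H.MP_738f0f_lc.A

set_option autoImplicit false

/-! Forcing with c.e. sets that are small against slaloms. -/

namespace Pool.Agent.H.MP_738f0f_lc

open Filter Pool.Agent.Lib.helper21 Encodable Pool.Agent.Lib.helper21.PR Finset

attribute [local irreducible] Primrec Computable

structure Cn (g : ℕ → ℕ) where
  σ : List ℕ
  S : List ℕ → Prop
  c : ℕ
  F : ℕ → ℕ → ℕ
  re : RE S
  up : ∀ ρ τ, ρ <+: τ → S ρ → S τ
  mem : Tr g σ
  small : ∀ τ, σ <+: τ → Tr g τ → Av c σ.length F τ → ¬ S τ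
  le : ∀ i, σ.length ≤ i → c * 2 ^ (i + 2) ≤ g i

variable {g h L : ℕ → ℕ}

instance : Preorder (Cn g) where
  le d e := e.σ <+: d.σ ∧ ∀ τ, e.S τ → d.S τ
  le_refl _ := ⟨List.prefix_refl _, fun _ k => k⟩
  le_trans _ _ _ a b := ⟨b.1.trans a.1, fun τ k => a.2 τ (b.2 τ k)⟩

def Cn.move (d : Cn g) (τ : List ℕ) (h1 : d.σ <+: τ) (h2 : Tr g τ) (h3 : Av d.c d.σ.length d.F τ) :
    Cn g := ⟨τ, d.S, d.c, d.F, d.re, d.up, h2,
  fun ρ a b c => d.small ρ (h1.trans a) b (h3.trans a c), fun i hi => d.le i (h1.length_le.trans hi)⟩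

theorem Cn.not (d : Cn g) : ¬ d.S d.σ :=
  d.small _ (List.prefix_refl _) d.mem fun _ a b => absurd a b.not_gt

def rho (g : ℕ → ℕ) (σ : List ℕ) (l j : ℕ) : List ℕ :=
  σ ++ (List.range (l - σ.length)).map fun t => j % g (σ.length + t)

theorem rho_len {σ : List ℕ} {l j : ℕ} (e : σ.length ≤ l) : (rho g σ l j).length = l := by
  simp [rho, e]

theorem rho_getD {σ : List ℕ} {l j i : ℕ} (e : σ.length ≤ i) (hi : i < l) :
    (rho g σ l j).getD i 0 = j % g i := by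
  rw [rho, List.getD_append_right _ _ _ _ e, List.getD_eq_getElem _ _ (by simp; omega)]
  simp [e]

theorem rho_tr (pos : ∀ i, 0 < g i) {σ : List ℕ} {l j : ℕ} (e : σ.length ≤ l) (k : Tr g σ) :
    Tr g (rho g σ l j) := fun i hi => (lt_or_ge i σ.length).elim
  (fun b => pre_getD (List.prefix_append σ _) b ▸ k i b) fun b =>
    rho_getD b (rho_len e ▸ hi) ▸ Nat.mod_lt _ (pos i)

theorem Cn.surv (d : Cn g) {M l : ℕ} (e : d.σ.length ≤ l) (hM : 2 * (l * d.c) < M) :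
    ∃ j < M, Av d.c d.σ.length d.F (rho g d.σ l j) :=
  (MP_738f0f_lc.surv d.le hM d.F).imp fun _ k => ⟨k.1, fun i hi hs a ha =>
    rho_getD hs (rho_len e ▸ hi) ▸ k.2 i (rho_len e ▸ hi) hs a ha⟩

theorem Cn.long (pos : ∀ i, 0 < g i) (d : Cn g) (n : ℕ) : ∃ τ, d.σ <+: τ ∧ Tr g τ ∧
    Av d.c d.σ.length d.F τ ∧ n ≤ τ.length :=
  let ⟨_, _, k⟩ := d.surv (Nat.le_add_right _ n) (Nat.lt_succ_self _)
  ⟨_, List.prefix_append _ _, rho_tr pos (Nat.le_add_right _ n) d.mem, k,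
    (rho_len (Nat.le_add_right _ n)).symm ▸ Nat.le_add_left _ _⟩

theorem guess (hg : Primrec g) (hL : Primrec L) (pos : ∀ i, 0 < g i)
    (gap : ∀ c l i n, L c ≤ l → l ≤ i → n ≤ 2 * (2 * c + 1) * (l + 1) →
      (h n + 1) * c * 2 ^ (i + 2) ≤ g i) (d0 : Cn g) {W : ℕ → ℕ → List ℕ → Prop}
    (hW : RE fun z : ℕ × ℕ × List ℕ => W z.1 z.2.1 z.2.2)
    (up : ∀ n v ρ τ, ρ <+: τ → W n v ρ → W n v τ)
    (H : ∀ d ≤ d0, ¬ ∃ n, ∀ τ, ∀ v < h n, W n v τ → d.S τ) :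
    ∃ x, Computable x ∧ ∀ d ≤ d0, ∀ m, ∃ e ≤ d, ∃ n, m ≤ n ∧ W n (x n) e.σ := by
  have hS := d0.re
  have h1 := bg_re (α := ℕ × ℕ) hg (S := fun z τ => d0.S τ ∨ W z.1 z.2 τ)
    (RE.un (RE.re (by generalize d0.S = S at hS; fun_prop)))
  let s : ℕ → List ℕ := fun r => (decode r.unpair.1.unpair.1).getD []
  let c : ℕ → ℕ := fun r => r.unpair.1.unpair.2
  let l : ℕ → ℕ := fun r => 2 ^ r / (2 * c r + 1)
  let G : ℕ → Prop := fun r => d0.σ <+: s r ∧ Tr g (s r) ∧ (s r).length ≤ l r ∧ L (c r) ≤ l r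
  have hs : Primrec s := by unfold s; fun_prop
  have hc : Primrec c := by unfold c; fun_prop
  have hl : Primrec l := by unfold l; fun_prop
  have hG : Primrec fun r => cd (G r) := by unfold G Tr; fun_prop
  have hr : Primrec fun z : ℕ × ℕ => rho g (s z.2) (l z.2) (z.1 - 2 ^ z.2) := by
    unfold rho; fun_prop
  obtain ⟨x, h2, h3⟩ := RI.choice (Y := fun _ => false) (R := fun n v : ℕ => n = 0 ∨ ∃ r,
    2 ^ r ≤ n ∧ n < 2 ^ (r + 1) ∧ (¬ G r ∨ Bg g (c r) (fun τ => d0.S τ ∨ W n v τ)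
      (rho g (s r) (l r) (n - 2 ^ r)))) (i_re (r_or (by fun_prop) (r_exists (r_and (by fun_prop)
        (r_and (by fun_prop) (r_or (r_prim (p_dnot (p_comp (f := fun r => cd (G r)) hG .snd))) (r_pw (r_comp
          (f := fun z : (ℕ × ℕ) × ℕ => (z.1, c z.2, rho g (s z.2) (l z.2) (z.1.1 - 2 ^ z.2))) h1
            (c_prim (p_pair .fst (p_pair (by fun_prop)
              (p_comp (g := fun z : (ℕ × ℕ) × ℕ => (z.1.1, z.2)) hr (by fun_prop)))))))))))))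
    fun n => by
      by_contra k
      simp only [not_exists, not_or, not_and, not_not] at k
      have a1 := Nat.lt_pow_succ_log_self one_lt_two n
      have a2 := fun v => (k v).2 _ (Nat.pow_log_le_self 2 (k v).1) a1
      obtain ⟨b1, b2, b3, b4⟩ := (a2 0).1
      have a3 := mt (Bg.union (M := h n + 1)) fun ⟨v, _, e⟩ => (a2 v).2 e
      simp only [Bg, not_forall, not_exists, not_and] at a3
      obtain ⟨F, a3⟩ := a3
      refine H ⟨_, fun τ => ∃ v, v < h n + 1 ∧ (d0.S τ ∨ W n v τ), _, F, RE.un (RE.re (by clear a3 a2 k; generalize d0.S = S at hS; fun_prop)),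
        fun ρ τ e ⟨v, a, b⟩ => ⟨v, a, b.imp (d0.up _ _ e) (up _ _ _ _ e)⟩, rho_tr pos b3 b2,
        fun τ a b c ⟨v, e⟩ => a3 τ a b c v e.1 e.2, fun i hi => gap _ _ i n b4 (rho_len b3 ▸ hi) ?_⟩
        ⟨b1.trans (List.prefix_append _ _), fun τ a => ⟨0, Nat.succ_pos _, .inl a⟩⟩
        ⟨n, fun τ v a b => ⟨v, Nat.lt_succ_of_lt a, .inr b⟩⟩
      have := Nat.lt_mul_div_succ (2 ^ Nat.log 2 n) (2 * c (Nat.log 2 n)).succ_pos
      rw [Nat.pow_succ] at a1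
      unfold l
      nlinarith
  refine ⟨x, by
    unfold Computable; exact RecursiveIn.partrec_of_const (s := Part.some 0) h2.red, fun d hd m => ?_⟩
  obtain ⟨r, a1, a2, a3⟩ : ∃ r, s r = d.σ ∧ c r = d.c ∧
      (d.σ.length + L d.c + m + 1) * (2 * d.c + 1) ≤ 2 ^ r :=
    ⟨((encode d.σ).pair d.c).pair _, by simp [s], by simp [c],
      (Nat.right_le_pair _ _).trans Nat.lt_two_pow_self.le⟩
  have a4 : d.σ.length + L d.c + m + 1 ≤ l r := by
    unfold l; rwa [a2, Nat.le_div_iff_mul_le (Nat.succ_pos _)]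
  have a5 : l r * (2 * d.c + 1) ≤ 2 ^ r := by unfold l; rw [a2]; exact Nat.div_mul_le_self _ _
  obtain ⟨j, a6, a7⟩ := d.surv (l := l r) (M := 2 ^ r) (by omega) (by nlinarith)
  obtain ⟨r', b1, b2, b3⟩ := (h3 (2 ^ r + j)).resolve_left (by positivity)
  obtain rfl : r' = r := (Nat.log_eq_of_pow_le_of_lt_pow b1 b2).symm.trans
    (Nat.log_eq_of_pow_le_of_lt_pow (Nat.le_add_right _ _) (by rw [pow_succ]; omega))
  obtain ⟨τ, b4, b5, b6, b7⟩ := b3.resolve_left (not_not.2 ⟨a1 ▸ hd.1, a1 ▸ d.mem, by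
    rw [a1]; omega, by rw [a2]; omega⟩) d.F
  rw [a1, Nat.add_sub_cancel_left] at b4 b6
  have b8 := a7.trans b4 (a2 ▸ b6)
  have b9 := (List.prefix_append _ _).trans b4
  exact ⟨d.move τ b9 b5 b8, ⟨b9, fun _ k => k⟩, _, by nlinarith,
    b7.resolve_left fun k => d.small τ b9 b5 b8 (hd.2 τ k)⟩

theorem main (hg : Primrec g) (hL : Primrec L) (pos : ∀ i, 0 < g i)
    (gap : ∀ c l i n, L c ≤ l → l ≤ i → n ≤ 2 * (2 * c + 1) * (l + 1) →
      (h n + 1) * c * 2 ^ (i + 2) ≤ g i) :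
    ∃ f : ℕ → ℕ, (∀ n, f n < g n) ∧ (∀ x, Computable x → ∀ᶠ n in atTop, x n ≠ f n) ∧
      ∀ y, CI (gf f) y → (∀ n, y n < h n) → ∃ x, Computable x ∧ ∃ᶠ n in atTop, x n = y n := by
  have := cnt
  have hV := V_re
  have : Nonempty {x : ℕ → ℕ // Computable x} := ⟨⟨_, .id⟩⟩
  obtain ⟨z, h1, h2⟩ := gen (ι := {x : ℕ → ℕ // Computable x} × ℕ × ℕ × Fin 4) (fun u (d : Cn g) =>
    (![u.2.1 ≤ d.σ.length, ∀ τ : List ℕ, ∀ i < τ.length, d.σ.length ≤ i → τ.getD i 0 = u.1.1 i → d.S τ,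
      ∃ n, ∀ τ, ∀ v < h n, V (u.2.1.pair (encode (n, v))) τ → d.S τ,
      ∃ n, u.2.2.1 ≤ n ∧ V (u.2.1.pair (encode (n, u.1.1 n))) d.σ] : Fin 4 → Prop) u.2.2.2)
    ⟨[], fun _ => False, 0, fun _ _ => 0, RE.un (RE.re (by fun_prop)), fun _ _ _ k => k,
      fun _ k => by simp at k, fun _ _ _ _ k => k, by simp⟩
  have h3 : ∀ N n, ∃ m, n ≤ m ∧ N ≤ (z m).σ.length := fun N n => by
    obtain ⟨m, k | k⟩ := h2 (⟨_, .id⟩, N, 0, 0)
    · exact ⟨n + m, by omega, le_trans k (h1 (Nat.le_add_left m n)).1.length_le⟩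
    · obtain ⟨τ, a, b, c, e⟩ := (z m).long pos N
      exact absurd e (k ((z m).move τ a b c) ⟨a, fun _ k => k⟩)
  obtain ⟨f, hf⟩ := chain' (fun n => (z n).σ) (fun n m k => (h1 k).1)
    fun i => (h3 (i + 1) 0).imp fun _ k => k.2
  refine ⟨f, fun n => ?_, fun x hx => ?_, fun y hy hb => ?_⟩
  · obtain ⟨m, -, k⟩ := h3 (n + 1) 0
    exact hf m n k ▸ (z m).mem n k
  · obtain ⟨m, k | k⟩ := h2 (⟨x, hx⟩, 0, 0, 1)
    · refine (eventually_ge_atTop (z m).σ.length).mono fun n hn e => ?_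
      obtain ⟨m', a, b⟩ := h3 (n + 1) m
      exact (z m').not ((h1 a).2 _ (k _ n b hn ((hf m' n b).trans e.symm)))
    · obtain ⟨τ, a, b, c, e⟩ := (z m).long pos (L ((z m).c + 1))
      have hS := (z m).re
      have hx' := RI.re (Computable.ci hx).ri
      refine absurd (fun ρ i a b c => .inr ⟨i, a, b, c.symm⟩) (k ⟨τ, fun ρ => (z m).S ρ ∨
        ∃ i, i < ρ.length ∧ τ.length ≤ i ∧ x i = ρ.getD i 0, (z m).c + 1,
        fun i a => if a < (z m).c then (z m).F i a else x i,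
        RE.un (RE.re (r_or (r_pw hS) (r_exists (r_and (by fun_prop) (r_and (by fun_prop) (r_pw (r_comp
          (f := fun z : List ℕ × ℕ => (z.2, z.1.getD z.2 0)) hx' (by fun_prop)))))))),
        fun _ _ e => .imp ((z m).up _ _ e) fun ⟨i, a, b, c⟩ =>
          ⟨i, a.trans_le e.length_le, b, pre_getD e a ▸ c⟩, b, fun ρ a1 a2 a3 => ?_, fun i hi => ?_⟩
        ⟨a, fun _ => .inl⟩)
      · rintro (k | ⟨i, b1, b2, b3⟩)
        · exact (z m).small ρ (a.trans a1) a2 (c.trans a1 fun i hi hs a ha => by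
            simpa [ha] using a3 i hi hs a (by omega)) k
        · exact a3 i b1 b2 _ (Nat.lt_succ_self _) (by simpa using b3.symm)
      · exact le_trans (by gcongr; exact Nat.le_mul_of_pos_left _ (Nat.succ_pos _))
          (gap _ i i 0 (e.trans hi) le_rfl (Nat.zero_le _))
  · obtain ⟨e, he⟩ := hy.ri.idx
    obtain ⟨m, ⟨n, k⟩ | k⟩ := h2 (⟨_, .id⟩, e, 0, 2)
    · obtain ⟨s, hs⟩ := V.complete ((he (n, y n)).2 rfl)
      obtain ⟨m', a, b⟩ := h3 s m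
      exact absurd ((h1 a).2 _ (k _ _ (hb n) (hs _ b (hf m')))) (z m').not
    obtain ⟨x, hx, a⟩ := guess hg hL pos gap (z m) (W := fun n v => V (e.pair (encode (n, v))))
      (r_comp (f := fun z : ℕ × ℕ × List ℕ => (e.pair (encode (z.1, z.2.1)), z.2.2)) hV
        (by fun_prop)) (fun _ _ _ _ a b => b.mono a) k
    refine ⟨x, hx, frequently_atTop.2 fun N => ?_⟩
    obtain ⟨m', ⟨n, b, c⟩ | c⟩ := h2 (⟨x, hx⟩, e, N, 3)
    · exact ⟨n, b, ((he _).1 (c.sound (hf m'))).symm⟩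
    · obtain ⟨d, b1, b2⟩ := a _ (h1 (Nat.le_add_right m m')) N
      exact absurd b2 (c d (b1.trans (h1 (Nat.le_add_left _ _))))

theorem fac {K i : ℕ} (hi : 2 * K ^ 2 ≤ i) : K ^ i ≤ i.factorial := by
  obtain ⟨n, rfl⟩ := Nat.exists_eq_add_of_le ((Nat.le_mul_of_pos_left _ two_pos).trans hi)
  refine le_trans ?_ Nat.factorial_mul_pow_le_factorial
  rcases K.eq_zero_or_pos with rfl | hK
  · exact (Nat.pow_le_pow_left zero_le_one _).trans (by simp)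
  calc K ^ (K ^ 2 + n) ≤ K ^ (2 * n) := Nat.pow_le_pow_right hK (by omega)
    _ ≤ (K ^ 2 + 1) ^ n := by rw [pow_mul]; exact Nat.pow_le_pow_left (Nat.le_succ _) _
    _ ≤ _ := Nat.le_mul_of_pos_left _ (Nat.factorial_pos _)

theorem gap (c l i n : ℕ) (h1 : 2 * (2 ^ (9 * c + 10)) ^ 2 ≤ l) (h2 : l ≤ i)
    (h3 : n ≤ 2 * (2 * c + 1) * (l + 1)) : (2 ^ 2 ^ n + 1) * c * 2 ^ (i + 2) ≤ 2 ^ i.factorial := by
  have a1 := fac (h1.trans h2)
  have a0 : 0 < i := lt_of_lt_of_le (by positivity) (h1.trans h2)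
  have a2 : 2 ^ n + 1 + c + (i + 2) ≤ 2 ^ (n + (c + i + 3)) := by
    rw [pow_add]
    nlinarith [Nat.lt_two_pow_self (n := c + i + 3), Nat.one_le_two_pow (n := n)]
  calc _ ≤ 2 ^ (2 ^ n + 1) * 2 ^ c * 2 ^ (i + 2) := by
        gcongr
        · rw [pow_succ]; have := Nat.one_le_two_pow (n := 2 ^ n); omega
        · exact Nat.lt_two_pow_self.le
    _ ≤ _ := by
      rw [← pow_add, ← pow_add]
      refine Nat.pow_le_pow_right two_pos (a2.trans (le_trans ?_ a1))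
      rw [← pow_mul]
      exact Nat.pow_le_pow_right two_pos (by nlinarith [Nat.mul_le_mul_left c h2])

end Pool.Agent.H.MP_738f0f_lc
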