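import Pool.Agent.Lib.helper21.Bushy

set_option autoImplicit false

/-! Bigness against slaloms. -/

namespace Pool.Agent.H.MP_738f0f_lc

open Filter Pool.Agent.Lib.helper21 Encodable Pool.Agent.Lib.helper21.PR Finset

attribute [local irreducible] Primrec Computable

theorem gen {C ι : Type} [Preorder C] [Countable ι] [Nonempty ι] (P : ι → C → Prop) (c : C) :
    ∃ z : ℕ → C, Antitone z ∧ ∀ i, ∃ n, P i (z n) ∨ ∀ d ≤ z n, ¬ P i d := by
  obtain ⟨s, hs⟩ := exists_surjective_nat ι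
  have : ∀ n c, ∃ d ≤ c, P (s n) d ∨ ∀ e ≤ d, ¬ P (s n) e := fun n c => by
    by_cases h : ∃ d ≤ c, P (s n) d
    · exact h.imp fun _ k => ⟨k.1, .inl k.2⟩
    · exact ⟨c, le_rfl, .inr fun e k k' => h ⟨e, k, k'⟩⟩
  choose F h1 h2 using this
  exact ⟨fun n => Nat.rec c F n, antitone_nat_of_succ_le fun n => h1 n _, fun i =>
    let ⟨n, hn⟩ := hs i; ⟨n + 1, hn ▸ h2 n _⟩⟩

theorem cnt : Countable {x : ℕ → ℕ // Computable x} := by
  choose c hc using fun x : {x : ℕ → ℕ // Computable x} =>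
    Nat.Partrec.Code.exists_code.1 (Partrec.nat_iff.1 x.2.partrec)
  exact Function.Injective.countable (f := c) fun x y e => Subtype.ext (funext fun n =>
    Part.some_injective (congrFun ((hc x).symm.trans ((congrArg _ e).trans (hc y))) n :))

theorem pre_getD {ρ τ : List ℕ} (e : ρ <+: τ) {k : ℕ} (hk : k < ρ.length) :
    τ.getD k 0 = ρ.getD k 0 := by
  obtain ⟨t, rfl⟩ := e
  exact List.getD_append _ _ _ _ hk

theorem chain' (z : ℕ → List ℕ) (h : ∀ n m, n ≤ m → z n <+: z m) (h' : ∀ i, ∃ n, i < (z n).length) :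
    ∃ f : ℕ → ℕ, ∀ n, ∀ i < (z n).length, (z n).getD i 0 = f i := by
  choose N hN using h'
  exact ⟨fun i => (z (N i)).getD i 0, fun n i hi => (pre_getD (h _ _ (le_max_left n (N i)))
    hi).symm.trans (pre_getD (h _ _ (le_max_right _ _)) (hN i))⟩

theorem digits (G : ℕ) (d : ℕ → ℕ) : ∀ N, ∃ w < (G + 1) ^ N, ∀ k < N,
    w / (G + 1) ^ k % (G + 1) = d k % (G + 1) := fun N => by
  induction N generalizing d with
  | zero => exact ⟨0, by simp, by simp⟩
  | succ N ih =>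
    obtain ⟨w, h1, h2⟩ := ih fun k => d (k + 1)
    have := Nat.mod_lt (d 0) G.succ_pos
    refine ⟨d 0 % (G + 1) + (G + 1) * w, by rw [pow_succ']; nlinarith, fun k hk => ?_⟩
    cases k with
    | zero => simp
    | succ k =>
      rw [pow_succ', ← Nat.div_div_eq_div_mul, Nat.add_mul_div_left _ _ G.succ_pos,
        Nat.div_eq_of_lt this, zero_add, h2 k (by omega)]

def Tr (g : ℕ → ℕ) (τ : List ℕ) : Prop := ∀ i < τ.length, τ.getD i 0 < g i

def Av (c s : ℕ) (F : ℕ → ℕ → ℕ) (τ : List ℕ) : Prop :=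
  ∀ i < τ.length, s ≤ i → ∀ a < c, τ.getD i 0 ≠ F i a

def Bg (g : ℕ → ℕ) (c : ℕ) (S : List ℕ → Prop) (σ : List ℕ) : Prop :=
  ∀ F, ∃ τ, σ <+: τ ∧ Tr g τ ∧ Av c σ.length F τ ∧ S τ

variable {g : ℕ → ℕ} {c s : ℕ} {S : List ℕ → Prop} {σ ρ τ : List ℕ} {F : ℕ → ℕ → ℕ}

theorem Av.trans (h : Av c s F ρ) (e : ρ <+: τ) (k : Av c ρ.length F τ) : Av c s F τ :=
  fun i hi hs a ha => (lt_or_ge i ρ.length).elim (fun b => pre_getD e b ▸ h i b hs a ha)
    fun b => k i hi b a ha

theorem Bg.union {R : ℕ → List ℕ → Prop} {M : ℕ} (h : Bg g (M * c) (fun τ => ∃ v < M, R v τ) σ) :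
    ∃ v < M, Bg g c (R v) σ := by
  by_contra k
  simp only [Bg, not_exists, not_and, not_forall] at k
  choose! G hG using k
  obtain ⟨τ, h1, h2, h3, v, h4, h5⟩ := h fun i a => G (a / c) i (a % c)
  refine hG v h4 τ h1 h2 (fun i hi hs a ha => ?_) h5
  have := h3 i hi hs (a + c * v) (by nlinarith)
  dsimp only at this
  rwa [Nat.add_mul_div_left _ _ (by omega), Nat.div_eq_of_lt ha, zero_add, Nat.add_mul_mod_self_left,
    Nat.mod_eq_of_lt ha] at this

theorem bg_iff : Bg g c S σ ↔ ∃ L G, (∀ i < L, g i ≤ G) ∧ ∀ w < (G + 1) ^ (L * c), ∃ τ : List ℕ,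
    τ.length ≤ L ∧ σ <+: τ ∧ Tr g τ ∧
      Av c σ.length (fun i a => w / (G + 1) ^ (i * c + a) % (G + 1)) τ ∧ S τ := by
  refine ⟨fun h => ?_, fun ⟨L, G, h1, h2⟩ F => ?_⟩
  · suffices ∃ L, ∀ F, ∃ τ : List ℕ, τ.length ≤ L ∧ σ <+: τ ∧ Tr g τ ∧ Av c σ.length F τ ∧ S τ from
      this.imp fun L k => ⟨∑ i ∈ range L, g i, fun i hi => single_le_sum (f := g)
        (fun _ _ => Nat.zero_le _) (mem_range.2 hi), fun _ _ => k _⟩
    by_contra k
    simp only [not_exists, not_and, not_forall] at k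
    choose G hG using k
    have : ∀ i a, ∃ v ∈ Set.Iic (g i), ∀ᶠ L in hyperfilter ℕ, min (G L i a) (g i) = v :=
      fun i a => (Ultrafilter.eventually_exists_mem_iff (Set.finite_Iic _)).1
        (.of_forall fun L => ⟨_, Set.mem_Iic.2 (min_le_right _ _), rfl⟩)
    choose F _ hF using this
    obtain ⟨τ, h1, h2, h3, h4⟩ := h F
    obtain ⟨L, h5, h6⟩ := (((eventually_all_finite (Set.finite_Iio τ.length)).2 fun i _ =>
      (eventually_all_finite (Set.finite_Iio c)).2 fun a _ => hF i a).and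
        ((eventually_ge_atTop τ.length).filter_mono Nat.hyperfilter_le_atTop)).exists
    refine hG L τ h6 h1 h2 (fun i hi hs a ha e => h3 i hi hs a ha ?_) h4
    rw [← h5 i hi a ha, ← e, min_eq_left (h2 i hi).le]
  · obtain ⟨w, h3, h4⟩ := digits G (fun k => F (k / c) (k % c)) (L * c)
    obtain ⟨τ, h5, h6, h7, h8, h9⟩ := h2 w h3
    refine ⟨τ, h6, h7, fun i hi hs a ha e => h8 i hi hs a ha ?_, h9⟩
    have := (h7 i hi).trans_le (h1 i (hi.trans_le h5))
    dsimp only
    rw [h4 _ (by nlinarith), add_comm, Nat.add_mul_div_right _ _ (by omega), Nat.div_eq_of_lt ha,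
      zero_add, Nat.add_mul_mod_self_right, Nat.mod_eq_of_lt ha, ← e, Nat.mod_eq_of_lt (by omega)]

theorem bg_re {α : Type} [Primcodable α] (hg : Primrec g) {S : α → List ℕ → Prop}
    (hS : RE fun z : α × List ℕ => S z.1 z.2) :
    RE fun z : α × ℕ × List ℕ => Bg g z.2.1 (S z.1) z.2.2 := by
  simp only [bg_iff, Tr, Av]
  exact RE.un (RE.re (by fun_prop))

theorem surv {M l : ℕ} (h : ∀ i, s ≤ i → c * 2 ^ (i + 2) ≤ g i)
    (hM : 2 * (l * c) < M) (F : ℕ → ℕ → ℕ) :
    ∃ j < M, ∀ i < l, s ≤ i → ∀ a < c, j % g i ≠ F i a := by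
  by_contra k
  simp only [not_exists, not_and, not_forall, not_not] at k
  have h1 : range M ⊆ ((range l).filter (s ≤ ·)).biUnion fun i => (range c).biUnion fun a =>
      (range (M / g i + 1)).image fun t => F i a + g i * t := fun j hj => by
    obtain ⟨i, h1, h2, a, h3, h4⟩ := k j (mem_range.1 hj)
    simp only [mem_biUnion, mem_filter, mem_range, mem_image]
    exact ⟨i, ⟨h1, h2⟩, a, h3, j / g i, Nat.lt_succ_of_le (Nat.div_le_div_right (mem_range.1 hj).le),
      h4 ▸ Nat.mod_add_div _ _⟩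
  have h2 : (M : ℝ) ≤ ∑ i ∈ range l, ((M : ℝ) / 4 * (1 / 2) ^ i + c) := by
    refine (Nat.cast_le.2 ((card_range M).ge.trans ((card_le_card h1).trans
      card_biUnion_le))).trans ?_
    rw [Nat.cast_sum, sum_filter]
    refine sum_le_sum fun i _ => ?_
    split_ifs with b
    · have h3 : c * (M / g i) * 2 ^ (i + 2) ≤ M := by
        nlinarith [Nat.mul_le_mul_right (M / g i) (h i b), Nat.mul_div_le M (g i)]
      have h4 : ((c * (M / g i) : ℕ) : ℝ) ≤ (M : ℝ) / 4 * (1 / 2) ^ i := by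
        rw [one_div_pow, div_mul_div_comm, mul_one, le_div_iff₀ (by positivity)]
        exact_mod_cast (by rw [pow_add] at h3; linarith)
      refine (Nat.cast_le.2 (card_biUnion_le_card_mul _ _ (M / g i + 1) fun a _ =>
        card_image_le.trans (card_range _).le)).trans ?_
      rw [card_range, mul_add, Nat.cast_add]
      simpa using h4
    · positivity
  rw [sum_add_distrib, ← mul_sum, sum_const, card_range, nsmul_eq_mul] at h2
  have h3 := sum_geometric_two_le l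
  have h4 : 2 * ((l : ℝ) * c) < M := by exact_mod_cast hM
  nlinarith [Nat.cast_nonneg (α := ℝ) M]

end Pool.Agent.H.MP_738f0f_lc
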