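import Pool.Agent.H.MP_65fbb9_lc.B

set_option autoImplicit false

/-! Positive lower density of agreement and eventually different functions. -/

namespace Pool.Agent.H.MP_738f0f_lc

open Filter Pool.Agent.Lib.helper21 Encodable Pool.Agent.Lib.helper21.PR Finset
open Pool.Agent.H.MP_65fbb9_lc

attribute [local irreducible] Primrec Computable
attribute [local fun_prop] ci_tb

theorem dual : ∃ En : (ℕ → ℕ) → ℕ → Bool, (∀ A y, CI A y → CI A (En y)) ∧ ∀ Y, CI O Y →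
    ∃ x, CI O x ∧ ∀ y, (∀ᶠ n in atTop, ¬ x n = y n ∧ y n < 2 ^ 2 ^ n) → 1 / 64 ≤ ld Y (En y) := by
  obtain ⟨L, h1, h2⟩ := RI.choice (Y := O) (R := fun (n : ℕ) (L : List ℕ) => ∀ u < 2 ^ 2 ^ n, ∀ v < u,
    2 ^ n < ds (8 * 2 ^ n) (Fn.tb (L.getD u 0)) (Fn.tb (L.getD v 0)))
    (i_re (r_prim (by
      have : Primrec fun z : ℕ × ℕ => Fn.tb z.1 z.2 := Fn.tb_prim
      unfold ds; fun_prop)))
    fun n => (code (by positivity) _ le_rfl).imp fun _ k => k.2
  have h3 : CI O fun z : ℕ × ℕ => (L z.1).getD z.2 0 :=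
    ci_comp (f := fun z : List ℕ × ℕ => z.1.getD z.2 0) (g := fun z : ℕ × ℕ => (L z.1, z.2))
      (ci_prim (by fun_prop)) (by fun_prop)
  generalize hE : (fun n v => (L n).getD v 0) = E
  simp only [show ∀ n v, (L n).getD v 0 = E n v from fun _ _ => hE ▸ rfl] at h2 h3
  refine ⟨fun y k => !Fn.tb (E (Nat.log 2 k - 3) (y (Nat.log 2 k - 3))) (k - 2 ^ Nat.log 2 k),
    fun A y hy => ?_, fun Y hY => ?_⟩
  · have := lg (A := A)
    have := up (A := A) h3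
    exact ci_comp (ci_prim .not) (by fun_prop)
  obtain ⟨x, h5, h6⟩ := RI.choice (Y := O) (R := fun n v : ℕ => ∀ u < 2 ^ 2 ^ n,
    2 ^ n < 2 * ds (8 * 2 ^ n) (Fn.tb (E n u)) (fun i => Y (8 * 2 ^ n + i)) ∨ u = v)
    (by unfold ds; fun_prop) fun n => by
      by_cases c : ∃ v < 2 ^ 2 ^ n, 2 * ds (8 * 2 ^ n) (Fn.tb (E n v))
        (fun i => Y (8 * 2 ^ n + i)) ≤ 2 ^ n
      · obtain ⟨v, c1, c2⟩ := c
        refine ⟨v, fun u hu => (lt_or_ge _ _).imp_right fun c => by_contra fun e => ?_⟩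
        have a := ds_tri (8 * 2 ^ n) (fun i => Y (8 * 2 ^ n + i)) (Fn.tb (E n u)) (Fn.tb (E n v))
        have b := ds_tri (8 * 2 ^ n) (fun i => Y (8 * 2 ^ n + i)) (Fn.tb (E n v)) (Fn.tb (E n u))
        rcases Nat.lt_or_gt_of_ne e with e | e
        · have := h2 n v c1 u e; omega
        · have := h2 n u hu v e; omega
      · exact ⟨0, fun u hu => .inl (not_le.1 fun e => c ⟨u, hu, e⟩)⟩
  refine ⟨x, h5, fun y d => le_ld ?_⟩
  obtain ⟨N, hN⟩ := eventually_atTop.1 d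
  filter_upwards [lg_top.eventually_ge_atTop (N + 4), eventually_ne_atTop 0] with m a1 a2
  obtain ⟨n, hn⟩ : ∃ n, Nat.log 2 m = n + 4 := ⟨Nat.log 2 m - 4, by omega⟩
  have a3 := Nat.lt_pow_succ_log_self one_lt_two m
  have a4 := Nat.pow_log_le_self 2 a2
  rw [hn] at a1 a3 a4
  have a5 := (h6 n _ (hN n (by omega)).2).resolve_right (Ne.symm (hN n (by omega)).1)
  have a6 : ds (8 * 2 ^ n) (Fn.tb (E n (y n))) (fun i => Y (8 * 2 ^ n + i)) ≤ _ :=
    card_le_card_of_injOn (t := (range m).filter fun k => Y k = !Fn.tb (E (Nat.log 2 k - 3)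
      (y (Nat.log 2 k - 3))) (k - 2 ^ Nat.log 2 k)) (8 * 2 ^ n + ·) (fun i hi => by
        obtain ⟨b1, b2⟩ := mem_filter.1 (mem_coe.1 hi)
        have b3 : 8 * 2 ^ n = 2 ^ (n + 3) := by ring
        rw [mem_range, b3] at b1
        simp only [b3] at b2
        simp only [mem_coe, mem_filter, mem_range, b3, lg_add b1, Nat.add_sub_cancel,
          Nat.add_sub_cancel_left]
        exact ⟨by rw [pow_succ] at a4; omega, Bool.eq_not_iff.2 b2.symm⟩)
      fun _ _ _ _ => Nat.add_left_cancel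
  rw [div_le_div_iff₀ (by norm_num) (by positivity)]
  rw [pow_add 2 n] at a4
  rw [Nat.pow_succ, pow_add 2 n] at a3
  exact_mod_cast (by omega)

theorem sparse {A Y : ℕ → Bool} (hY : CI A Y)
    (h : ∀ y, CI A y → (∀ n, y n < 2 ^ 2 ^ n) → ∃ x, CI O x ∧ ∃ᶠ n in atTop, x n = y n) :
    ∃ S, CI O S ∧ ld S Y ≤ 0 := by
  have := lg (A := O)
  have h0 : CI A fun n => Fn.cd Y (2 ^ n) := (ci_rec (m := fun n => 2 ^ n) (g := fun _ => 0)
    (h := fun _ s b => 2 ^ s * (Y s).toNat + b) (by fun_prop) (by fun_prop) (by fun_prop)).of_eq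
      fun n => by induction 2 ^ n <;> simp_all [Fn.cd]
  obtain ⟨x, h1, h2⟩ := h _ h0 fun _ => Fn.cd_lt _ _
  have h3 := up (A := A) h1
  obtain ⟨p, h4, h5⟩ := RI.choice (Y := A) (R := fun k n : ℕ => 2 ^ (2 * k + 2) ≤ n ∧
    x n = Fn.cd Y (2 ^ n)) (i_and (by fun_prop) (i_ci (ci_eq (ci_comp h3 (ci_prim .snd))
      (ci_comp (f := fun n => Fn.cd Y (2 ^ n)) h0 (ci_prim .snd))))) fun k => frequently_atTop.1 h2 _
  obtain ⟨z, h6, h7⟩ := h (fun k => p k % 2 ^ (2 * k + 2) % 2 ^ 2 ^ k) (by fun_prop)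
    fun _ => Nat.mod_lt _ (by positivity)
  let K : ℕ → ℕ := fun l => Nat.log 2 l - 1 - Nat.log 2 (l - 2 ^ Nat.log 2 l)
  let T : ℕ → ℕ := fun l => 2 ^ (Nat.log 2 l + 1) + (l - 2 ^ Nat.log 2 l -
    2 ^ Nat.log 2 (l - 2 ^ Nat.log 2 l)) / 2 ^ K l * 2 ^ (2 * K l + 2) + z (K l)
  have hT : CI O T := by unfold T K; fun_prop
  refine ⟨fun i => !Fn.tb (x (T (Nat.log 2 i))) i, ci_comp (ci_prim .not) (by fun_prop),
    le_of_forall_pos_le_add fun ε hε => ld_le (frequently_atTop.2 fun N => ?_)⟩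
  obtain ⟨M, hM⟩ := exists_nat_one_div_lt hε
  obtain ⟨k, a1, a2⟩ := (h7.and_eventually (eventually_ge_atTop (N + M + 3))).exists
  have a3 : 2 * k + 2 ≤ 2 ^ k := by
    obtain ⟨j, rfl⟩ : ∃ j, k = j + 3 := ⟨k - 3, by omega⟩
    have := Nat.lt_two_pow_self (n := j)
    rw [pow_add]; omega
  rw [Nat.mod_eq_of_lt ((Nat.mod_lt _ (by positivity)).trans_le
    (Nat.pow_le_pow_right two_pos a3))] at a1
  obtain ⟨a4, a5⟩ := h5 k
  obtain ⟨d, a6⟩ := Nat.exists_eq_add_of_le (Nat.le_log_of_pow_le one_lt_two a4)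
  obtain ⟨w, a7⟩ := Nat.exists_eq_add_of_le (Nat.pow_log_le_self 2 (x := p k)
    (ne_of_gt (lt_of_lt_of_le (by positivity) a4)))
  have a8 := Nat.lt_pow_succ_log_self one_lt_two (p k)
  rw [a6] at a7 a8
  have a9 : w % 2 ^ (2 * k + 2) = z k := by rw [a1, a7, pow_add 2 _ d, Nat.mul_add_mod]
  have b1 : w / 2 ^ (2 * k + 2) < 2 ^ d :=
    Nat.div_lt_of_lt_mul (by rw [← pow_add]; rw [Nat.pow_succ] at a8; omega)
  have b0 := Nat.div_add_mod' w (2 ^ (2 * k + 2))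
  generalize w / 2 ^ (2 * k + 2) = t at b0 b1
  have b2 : t * 2 ^ k + 2 ^ k ≤ 2 ^ (k + d) := by rw [pow_add]; nlinarith [Nat.one_le_two_pow (n := k)]
  have b3 : 2 * 2 ^ (k + d) ≤ 2 ^ (2 * k + 1 + d) := by
    rw [← pow_succ']; exact Nat.pow_le_pow_right two_pos (by omega)
  have b4 : 2 ^ (2 * k + 2 + d) = 2 * 2 ^ (2 * k + 1 + d) := by ring
  have b5 : ∀ u < 2 ^ k, T (2 ^ (2 * k + 1 + d) + (2 ^ (k + d) + (t * 2 ^ k + u))) = p k :=
    fun u hu => by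
      have c1 := lg_add (j := 2 * k + 1 + d) (i := 2 ^ (k + d) + (t * 2 ^ k + u)) (by omega)
      have c2 := lg_add (j := k + d) (i := t * 2 ^ k + u) (by omega)
      simp only [T, K, c1, c2, Nat.add_sub_cancel_left, show 2 * k + 1 + d - 1 - (k + d) = k by omega]
      rw [add_comm (t * _), Nat.add_mul_div_right _ _ (by positivity), Nat.div_eq_of_lt hu, zero_add,
        pow_succ]
      omega
  generalize hs : 2 ^ (2 * k + 1 + d) + (2 ^ (k + d) + t * 2 ^ k) = s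
  have b6 : ((range (2 ^ (s + 2 ^ k))).filter fun i =>
      (!Fn.tb (x (T (Nat.log 2 i))) i) = Y i) ⊆ range (2 ^ s) := fun i hi => by
    obtain ⟨c1, c2⟩ := mem_filter.1 hi
    refine mem_range.2 (not_le.1 fun c => ?_)
    obtain ⟨u, c3⟩ := Nat.exists_eq_add_of_le (Nat.le_log_of_pow_le one_lt_two c)
    have c4 := Nat.log_lt_of_lt_pow (ne_of_gt (lt_of_lt_of_le (by positivity) c)) (mem_range.1 c1)
    rw [c3, ← hs, add_assoc, add_assoc (2 ^ (k + d)), b5 u (by omega), a5, Fn.tb_cd _ _ _ ((mem_range.1 c1).trans_le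
      (Nat.pow_le_pow_right two_pos (by omega)))] at c2
    simp at c2
  have b7 := Nat.lt_two_pow_self (n := k)
  have b8 : (M + 1) * 2 ^ s ≤ 2 ^ (s + 2 ^ k) := by
    rw [pow_add, mul_comm]
    exact Nat.mul_le_mul_left _ (le_trans (by omega) Nat.lt_two_pow_self.le)
  refine ⟨2 ^ (s + 2 ^ k), le_trans (by omega) Nat.lt_two_pow_self.le, le_trans ?_
    (hM.le.trans_eq (zero_add _).symm)⟩
  rw [div_le_div_iff₀ (by positivity) (by positivity), one_mul, mul_comm]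
  exact_mod_cast (Nat.mul_le_mul_left _ ((card_le_card b6).trans_eq (card_range _))).trans b8

end Pool.Agent.H.MP_738f0f_lc
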